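import Mathlib
import Pool.Agent.TH566.WSM

set_option autoImplicit false

open Set Topology

namespace Pool.Agent.Results.MP_294ed4_gt.GulkoCompact

universe u

/-- `𝒜` is weakly `σ`-point-finite: `𝒜 = ⋃ n, A n` such that for every point `x`, `𝒜` is the union
of those `A n` for which `x` lies in only finitely many members of `A n`. -/
def WeaklySigmaPointFinite {X : Type u} (𝒜 : Set (Set X)) : Prop :=
  ∃ A : ℕ → Set (Set X), 𝒜 = ⋃ n, A n ∧
    ∀ x : X, 𝒜 = ⋃ n ∈ {n : ℕ | {a : Set X | a ∈ A n ∧ x ∈ a}.Finite}, A n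

/-- `X` is weakly `σ`-metacompact: every open cover has a weakly `σ`-point-finite open
refinement (which covers `X`). -/
def WeaklySigmaMetacompact (X : Type u) [TopologicalSpace X] : Prop :=
  ∀ 𝒰 : Set (Set X), (∀ U ∈ 𝒰, IsOpen U) → ⋃₀ 𝒰 = univ →
    ∃ 𝒱 : Set (Set X), (∀ V ∈ 𝒱, IsOpen V) ∧ ⋃₀ 𝒱 = univ ∧
      (∀ V ∈ 𝒱, ∃ U ∈ 𝒰, V ⊆ U) ∧ WeaklySigmaPointFinite 𝒱

/-- `Y` is a Lindelöf `Σ`-space: there are a countable family `𝒩` of subsets of `Y` and a cover
`𝒞` of `Y` by compact sets such that for every `K ∈ 𝒞` and every open `U ⊇ K` there is `N ∈ 𝒩`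
with `K ⊆ N ⊆ U`. -/
def LindelofSigma (Y : Type u) [TopologicalSpace Y] : Prop :=
  ∃ 𝒩 𝒞 : Set (Set Y), 𝒩.Countable ∧ (∀ K ∈ 𝒞, IsCompact K) ∧ ⋃₀ 𝒞 = univ ∧
    ∀ K ∈ 𝒞, ∀ U : Set Y, IsOpen U → K ⊆ U → ∃ N ∈ 𝒩, K ⊆ N ∧ N ⊆ U

/-- `X` is Gul'ko compact: `X` is compact Hausdorff and the space of continuous real functions on
`X`, with the topology of pointwise convergence (the subspace topology from the product `X → ℝ`),
is a Lindelöf `Σ`-space. -/
def GulkoCompact (X : Type u) [TopologicalSpace X] : Prop :=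
  CompactSpace X ∧ T2Space X ∧ LindelofSigma {f : X → ℝ // Continuous f}

/-- If `X` is a compact Hausdorff space such that the complement of the diagonal in `X × X` is
weakly `σ`-metacompact, then `X` is Gul'ko compact. -/
theorem result (X : Type u) [TopologicalSpace X] [CompactSpace X] [T2Space X]
    (h : WeaklySigmaMetacompact ↥((diagonal X)ᶜ : Set (X × X))) : GulkoCompact X := by
  obtain ⟨L⟩ := Pool.Agent.TH566.WSM.exists_lab h
  exact ⟨inferInstance, inferInstance, L.lindelofSigma⟩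

end Pool.Agent.Results.MP_294ed4_gt.GulkoCompact
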