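import Mathlib
import Pool.Agent.TH566.Net

set_option autoImplicit false

open Set Topology

namespace Pool.Agent.Results.MP_294ed4_gt.HereditarySquare

universe u

/-- `𝒜` is weakly `σ`-point-finite: `𝒜 = ⋃ n, A n` such that for every point `x`, `𝒜` is the union
of those `A n` for which `x` lies in only finitely many members of `A n`. -/
def WeaklySigmaPointFinite {X : Type u} (𝒜 : Set (Set X)) : Prop :=
  ∃ A : ℕ → Set (Set X), 𝒜 = ⋃ n, A n ∧
    ∀ x : X, 𝒜 = ⋃ n ∈ {n : ℕ | {a : Set X | a ∈ A n ∧ x ∈ a}.Finite}, A n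

/-- `X` is weakly `σ`-metacompact: every open cover has a weakly `σ`-point-finite open
refinement (which covers `X`). -/
def WeaklySigmaMetacompact (X : Type u) [TopologicalSpace X] : Prop :=
  ∀ 𝒰 : Set (Set X), (∀ U ∈ 𝒰, IsOpen U) → ⋃₀ 𝒰 = univ →
    ∃ 𝒱 : Set (Set X), (∀ V ∈ 𝒱, IsOpen V) ∧ ⋃₀ 𝒱 = univ ∧
      (∀ V ∈ 𝒱, ∃ U ∈ 𝒰, V ⊆ U) ∧ WeaklySigmaPointFinite 𝒱

/-- If `X` is a compact Hausdorff space such that the complement of the diagonal in `X × X` is
weakly `σ`-metacompact, then every subspace of `X × X` is weakly `σ`-metacompact. -/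
theorem result (X : Type u) [TopologicalSpace X] [CompactSpace X] [T2Space X]
    (h : WeaklySigmaMetacompact ↥((diagonal X)ᶜ : Set (X × X))) :
    ∀ S : Set (X × X), WeaklySigmaMetacompact S :=
  Pool.Agent.TH566.Nw.square h

end Pool.Agent.Results.MP_294ed4_gt.HereditarySquare
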